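import Pool.Agent.helper56.NR.Spec

/-!
# Project nr: (MP_af9036_an): module MAC
-/

set_option autoImplicit false

open Complex Metric Set Filter Topology MeasureTheory Pool.Agent.helper98.ILF

open EX (ff)

noncomputable section

namespace NR

theorem MAC (hKOB : KOB_stmt) (hEXQ : EXQ_stmt) (hBBD : BBD_stmt) : MAC_stmt := by
  intro C hC
  obtain ⟨K, hK1, hK⟩ := hKOB
  have hC0 : 0 < C := by linarith
  have hK0 : 0 < K := by linarith
  have hCK : 0 < C * K := mul_pos hC0 hK0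
  refine ⟨C * K, by nlinarith, ?_⟩
  intro n c M ξ₀ hn hM hξ₀ hint hfil hv hexp τ hτ
  have hM0 : 0 < M := lt_of_lt_of_le hCK hM
  have hτ' : 0 < min τ (ξ₀ ^ n / C) := lt_min hτ (by positivity)
  obtain ⟨δ, hδ0, hδ1, hδ⟩ := hBBD n c hn hint hfil _ hτ'
  refine ⟨δ, hδ0, hδ1, ?_⟩
  intro m l G hm hl0 hlδ hG hGc
  have hb := hδ m l G hl0 hlδ hG hGc
  have hb0 : 0 ≤ l * ‖deriv G (vv n c m)‖ := mul_nonneg hl0.le (norm_nonneg _)
  refine ⟨hb.trans (min_le_left _ _), ?_⟩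
  intro s hs1 hsm
  have hz : ‖vv n c s - c‖ = ‖(ff n c)^[s] 0‖ ^ n := by
    rw [vv_sub n c (by omega) s, norm_pow]
  have hzpos : 0 < ‖(ff n c)^[s] 0‖ := by
    rw [norm_pos_iff]
    intro h0
    have h1 : ‖vv n c s - c‖ = 0 := by
      rw [hz, h0, norm_zero, zero_pow (by omega)]
    exact hv s hs1 (sub_eq_zero.1 (norm_eq_zero.1 h1))
  by_cases hcase : ξ₀ < ‖(ff n c)^[s] 0‖
  · have h1 : l * ‖deriv G (vv n c m)‖ ≤ ξ₀ ^ n / C := hb.trans (min_le_right _ _)
    have h2 : C * (l * ‖deriv G (vv n c m)‖) ≤ ξ₀ ^ n := by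
      rw [le_div_iff₀ hC0] at h1
      linarith [mul_comm C (l * ‖deriv G (vv n c m)‖)]
    rw [hz]
    exact h2.trans (pow_le_pow_left₀ hξ₀.le hcase.le n)
  · have hle : ‖(ff n c)^[s] 0‖ ≤ ξ₀ := not_lt.1 hcase
    rcases hb0.eq_or_lt with hb00 | hbpos
    · rw [← hb00, mul_zero]
      exact norm_nonneg _
    · have hτb : 0 < l * ‖deriv G (vv n c m)‖ / K := div_pos hbpos hK0
      have hkey := hEXQ n c M ‖(ff n c)^[s] 0‖ (l * ‖deriv G (vv n c m)‖ / K) s hn hM0 hzpos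
        hτb hs1 hint (hexp _ hzpos hle) (by
          intro u hu
          have h3 := (hK n c m G l hn hl0 hG hGc).2 s hs1 hsm u hu
          rw [hz] at h3
          rw [mem_ball_zero_iff]
          by_contra hcon
          rw [not_lt] at hcon
          have h4 : (4 * ‖(ff n c)^[s] 0‖) ^ n ≤ ‖(ff n c)^[s] u‖ ^ n :=
            pow_le_pow_left₀ (by positivity) hcon n
          rw [mul_pow] at h4
          have h5 : (4 : ℝ) ^ 2 ≤ 4 ^ n := pow_le_pow_right₀ (by norm_num) hn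
          have h6 : 0 < ‖(ff n c)^[s] 0‖ ^ n := pow_pos hzpos n
          nlinarith)
      have h7 : l * ‖deriv G (vv n c m)‖ / K < ‖(ff n c)^[s] 0‖ ^ n / (C * K) :=
        lt_of_lt_of_le hkey (div_le_div_of_nonneg_left (by positivity) hCK hM)
      rw [div_lt_div_iff₀ hK0 hCK] at h7
      rw [hz]
      have h8 : C * (l * ‖deriv G (vv n c m)‖) * K < ‖(ff n c)^[s] 0‖ ^ n * K := by
        calc C * (l * ‖deriv G (vv n c m)‖) * K = l * ‖deriv G (vv n c m)‖ * (C * K) := by ring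
          _ < _ := h7
      exact (lt_of_mul_lt_mul_right h8 hK0.le).le

end NR
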